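import Pool.Agent.Helper88.SE.Q_main2
import Pool.Agent.Helper88.SE.P_Ic2
import Pool.Agent.Helper88.SE3.P_fin1

set_option autoImplicit false
open MeasureTheory

namespace Pool.Agent.Results.MP_6f8d6f_an.LimitAtMostHexagonal

/-- The limit of `(E(-1,N) - N²/2) / N^(3/2)` exists, it is negative, and it is at most the
conjectured constant `C = √3 (√3/(8π))^(1/2) ζ(1/2) (ζ(1/2,1/3) - ζ(1/2,2/3))`. -/
theorem result :
    ∃ z l : ℝ, riemannZeta (1 / 2) = (z : ℂ) ∧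
      HurwitzZeta.hurwitzZeta ((1 / 3 : ℝ) : UnitAddCircle) (1 / 2) -
        HurwitzZeta.hurwitzZeta ((2 / 3 : ℝ) : UnitAddCircle) (1 / 2) = (l : ℂ) ∧
    ∃ c : ℝ, c < 0 ∧
      c ≤ Real.sqrt 3 * Real.sqrt (Real.sqrt 3 / (8 * Real.pi)) * z * l ∧
      Filter.Tendsto
        (fun N : ℕ =>
          (sInf {e : ℝ | ∃ x : Fin N → Metric.sphere (0 : EuclideanSpace ℝ (Fin 3)) 1,
              Function.Injective x ∧
              e = ∑ i, ∑ j ∈ Finset.Ioi i,
                1 / ‖((x i : EuclideanSpace ℝ (Fin 3)) - (x j : EuclideanSpace ℝ (Fin 3)))‖}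
            - 1 / 2 * (N : ℝ) ^ 2) / (N : ℝ) ^ (3 / 2 : ℝ))
        Filter.atTop (nhds c) := by
  obtain ⟨c, hc, hlim⟩ := Pool.Agent.Helper88.SE.main2 2 (by norm_num) 1 one_pos (by norm_num)
  have hlim0 : Filter.Tendsto (fun N : ℕ => Pool.Agent.Helper88.SE.F 2 1 N /
      (N : ℝ) ^ (1 + (1 : ℝ) / 2)) Filter.atTop (nhds c) := by
    have := hlim
    push_cast at this
    exact this
  obtain ⟨z, l, hz, hl, hup⟩ := Pool.Agent.Helper88.SE.fin1 c hlim0
  refine ⟨z, l, hz, hl, c / 2, by linarith, by nlinarith [hup], ?_⟩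
  have hlim2 : Filter.Tendsto (fun N : ℕ => Pool.Agent.Helper88.SE.F 2 1 N /
      (N : ℝ) ^ (3 / 2 : ℝ) / 2) Filter.atTop (nhds (c / 2)) := by
    refine Filter.Tendsto.div_const ?_ 2
    have := hlim
    have h32 : (1 : ℝ) + 1 / ((2 : ℕ) : ℝ) = 3 / 2 := by norm_num
    rw [h32] at this
    exact this
  refine hlim2.congr fun N => ?_
  have hset : sInf {e : ℝ | ∃ x : Fin N → Pool.Agent.Helper88.SE.S 2, Function.Injective x ∧
      e = Pool.Agent.Helper88.SE.En 1 x} = 2 *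
      sInf {e : ℝ | ∃ x : Fin N → Metric.sphere (0 : EuclideanSpace ℝ (Fin 3)) 1,
            Function.Injective x ∧
            e = ∑ i, ∑ j ∈ Finset.Ioi i,
              1 / ‖((x i : EuclideanSpace ℝ (Fin 3)) - (x j : EuclideanSpace ℝ (Fin 3)))‖} := by
    have h2 : (2 : ℝ) * sInf {e : ℝ | ∃ x : Fin N → Metric.sphere (0 : EuclideanSpace ℝ (Fin 3)) 1,
            Function.Injective x ∧
            e = ∑ i, ∑ j ∈ Finset.Ioi i,
              1 / ‖((x i : EuclideanSpace ℝ (Fin 3)) - (x j : EuclideanSpace ℝ (Fin 3)))‖} =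
        (2 : ℝ) • sInf {e : ℝ | ∃ x : Fin N → Metric.sphere (0 : EuclideanSpace ℝ (Fin 3)) 1,
            Function.Injective x ∧
            e = ∑ i, ∑ j ∈ Finset.Ioi i,
              1 / ‖((x i : EuclideanSpace ℝ (Fin 3)) - (x j : EuclideanSpace ℝ (Fin 3)))‖} := by
      rw [smul_eq_mul]
    rw [h2, ← Real.sInf_smul_of_nonneg (by norm_num : (0 : ℝ) ≤ 2)]
    congr 1
    have hEn : ∀ x : Fin N → Metric.sphere (0 : EuclideanSpace ℝ (Fin 3)) 1,
        Pool.Agent.Helper88.SE.En (d := 2) 1 x = 2 * ∑ i, ∑ j ∈ Finset.Ioi i,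
          1 / ‖((x i : EuclideanSpace ℝ (Fin 3)) - (x j : EuclideanSpace ℝ (Fin 3)))‖ := by
      intro x
      rw [Pool.Agent.Helper88.SE.En_eq_lt 1 one_pos x]
      congr 1
      refine Finset.sum_congr rfl fun i _ => Finset.sum_congr rfl fun j _ => ?_
      rw [Real.rpow_neg_one, one_div]
    ext e
    rw [Set.mem_smul_set]
    constructor
    · rintro ⟨x, hx, rfl⟩
      exact ⟨_, ⟨x, hx, rfl⟩, by rw [smul_eq_mul, hEn x]⟩
    · rintro ⟨_, ⟨x, hx, rfl⟩, rfl⟩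
      exact ⟨x, hx, by rw [smul_eq_mul, hEn x]⟩
  unfold Pool.Agent.Helper88.SE.F Pool.Agent.Helper88.SE.Em
  rw [hset, Pool.Agent.Helper88.SE.Ic2 1 one_pos (by norm_num)]
  have : (2 : ℝ) ^ ((1 : ℝ) - 1) / (2 - 1) = 1 := by norm_num
  rw [this]
  ring

end Pool.Agent.Results.MP_6f8d6f_an.LimitAtMostHexagonal
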